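import Pool.Agent.K1H17.SC.Fin

/-! Mumford's problem on tensor differentials for abelian covers of `W × ℙ¹ × ... × ℙ¹` with
arbitrary singularities.

New: the structure theorem for these covers (`Pool.Agent.K1H17.SC`, `K1H21.SC`, `K1H26.SC`,
`K1H30.SC`, `K1H45.SC`, `K1H52.SC`, `K1H96.SC`, `K1H99.SC`, written for this project). Theorem of the
library used as a tool: `TH466.QT.not_vanish` (pluricanonical forms of a subfield give tensor
differentials). -/

set_option autoImplicit false
set_option linter.overlappingInstances false

open FF Polynomial Pool.Agent.W619.PQ Pool.Agent.W619.TW Pool.Agent.K1H17.SC Pool.Agent.K1H17.MT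

namespace Pool.Agent.Results.MP_4329d7_ag.FibredCovers

/-- Let `W` be a projective variety of dimension `w` with function field `M` and with `κ (W) ≥ 0`
(for instance a point), and let `V`, with function field `L`, be an abelian cover of the product of
`W` and of `r` projective lines, given by the equations
`z j ^ m j = τ j * ∏ i, (f i (x i)) ^ A j i` (`j < s`), where the `τ j` are arbitrary nonzero rational
functions on `W`, `x i` is the coordinate of the `i`-th line, the nonconstant polynomials `f i` have
only simple zeros, and `m j` divides `A j i * deg (f i)` (`IsFibreCover`); there is no condition on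
the branching over `W` and on the singularities of `V`. For example, `V` may be the quotient of a
product of simple cyclic covers `y ^ m = f (x)` of the line (`m` divides the degree of the squarefree
polynomial `f`) by any subgroup of the product of the Galois groups.

Let `X` be a smooth projective variety of dimension `n` with function field `K` and with a dominant
rational map `X ⇢ V` (for instance a resolution of `V`). If `H⁰ (X, (Ω¹) ^ ⊗ m) = 0` for all `m ≥ 1`,
then `W` is a point, and `V` is rational and rationally connected. -/
theorem result {K : Type} [Field K] [Algebra ℂ K] {n : ℕ} (hn : Algebra.trdeg ℂ K = n)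
    {L : Type} [Field L] [Algebra ℂ L] (φ : L →ₐ[ℂ] K) (M : IntermediateField ℂ L) {w : ℕ}
    (hM : Algebra.trdeg ℂ M = w) (hess : Algebra.EssFiniteType ℂ M) (hW : ¬ KodairaNeg ℂ M w)
    {r s : ℕ} {x : Fin r → L} {f : Fin r → ℂ[X]} {A : Fin s → Fin r → ℤ} {m : Fin s → ℕ}
    {τ z : Fin s → L} (hV : IsFibreCover M x f A m τ z) (hT : TensorVanish ℂ K n) :
    w = 0 ∧ (∃ t : Fin r → L, AlgebraicIndependent ℂ t ∧
      IntermediateField.adjoin ℂ (Set.range t) = ⊤) ∧ RationallyConnected ℂ L :=
  rational_fin hn hM hess hW hV φ hT

end Pool.Agent.Results.MP_4329d7_ag.FibredCovers
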