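import Pool.Agent.K1H97.PU.MT

/-! Mumford's problem on tensor differentials for varieties with a rationally connected fibration
over (a variety which dominates) a quotient of a product of varieties by a finite group which
permutes the factors. -/

set_option autoImplicit false
set_option linter.overlappingInstances false

open FF IntermediateField Pool.Agent.W619.PQ Pool.Agent.W619.PL Pool.Agent.W619.TW
  Pool.Agent.W619.Y Pool.Agent.K1H17.IS Pool.Agent.K1H17.MT Pool.Agent.K1H6.PQ
  Pool.Agent.K1H97.PU

namespace Pool.Agent.Results.MP_4329d7_ag.PermutedQuotientTensors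

/-- Let `X` be a smooth projective variety of dimension `n` with function field `K`, and let
`X ⇢ V` be a dominant rational map whose generic fibre is rationally connected (for instance the
maximal rationally connected fibration of `X`). Let `Z i` (`i < r`) be varieties of dimensions
`a i` over the complex numbers, with function fields `M i` and with `κ (Z i) ≥ 0`, let `L` be the
function field of their product, `G` a finite group which acts on the product and permutes the
factors (`IsPermuted`: `g` in `G` permutes them as `σ g`), and suppose that there is a dominant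
rational map `V ⇢ (Z 1 × ... × Z r) / G`, and that `V` is a point if all `Z i` are points. (For
instance `X = (W 1 × ... × W r) / G`, `Z i` is the base of the maximal rationally connected fibration
of `W i`, and `V` is the quotient of their product.) Let `stab σ i` be the stabilizer in `G` of the
factor `i`, and let `s i g` be real numbers (weights) such that

* (`AgeOne`) every `g ≠ 1` in `G` moves a factor of dimension at least `2`, or `age g s ≥ 1`, where
  `age g s` is the sum over the cycles `c` of `σ g`, say of length `l` on factors of dimension `a`,
  of `a (l - 1) / 2`, plus the mean over `i` in `c` of `max (1 / t) (s i (g ^ l))` if `g ^ l` acts on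
  the factors of the cycle with order `t ≥ 2`; and
* for each `i`, the weights `s i g`, `g` in `stab σ i`, are not positive, or (`OrbEffective`) the
  Kodaira dimension of `K + ∑ δ v v` on `Z i / stab σ i` is not `-∞`, for some coefficients
  `δ v ≤ 1 - 1 / e v` with `δ v ≤ 1 - s i g` for all `g` in `stab σ i` which are nontrivial on `Z i`
  and fix pointwise a prime divisor over `v` (`e v` is the ramification index).

If `H⁰ (X, (Ω¹) ^ ⊗ m) = 0` for all `m ≥ 1`, then `V` is a point and `X` is rationally connected. -/
theorem result {K : Type} [Field K] [Algebra ℂ K] {n : ℕ} (hn : Algebra.trdeg ℂ K = n)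
    (V : IntermediateField ℂ K) (hV : RationallyConnected V K)
    {L : Type} [Field L] [Algebra ℂ L] {r : ℕ} (M : Fin r → IntermediateField ℂ L)
    (a : Fin r → ℕ) (G : Subgroup (L ≃ₐ[ℂ] L)) [Finite G] (σ : G →* Equiv.Perm (Fin r))
    (h : IsPermuted M a G σ) (s : Fin r → (L ≃ₐ[ℂ] L) → ℝ)
    (hs : ∀ i, (∀ g ∈ stab σ i, s i g ≤ 0) ∨ OrbEffective (M i) (stab σ i) (a i) (s i))
    (hg : AgeOne M a G σ s)
    (hκ : ∀ i, ¬ KodairaNeg ℂ (M i) (a i)) (φ : fixedField G →ₐ[ℂ] V)
    (hpt : (∀ i, a i = 0) → V = ⊥) (hT : TensorVanish ℂ K n) :
    V = ⊥ ∧ RationallyConnected ℂ K :=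
  mainP hn V hV M a G σ h s hs hg hκ φ hpt hT

end Pool.Agent.Results.MP_4329d7_ag.PermutedQuotientTensors
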